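import Pool.Agent.U856.BM.Stm2
import Pool.Agent.U856.BM.Stm1b

/-!
# Project BM: assembly
-/

set_option autoImplicit false

namespace Pool.Agent.U856.BM

theorem asm (hTR : S_TR) (hRV : S_RV) (hSD : S_SD) (hCO : S_SD → S_CO) (hUN : S_TR → S_SD → S_UN) (hAV : S_AV2)
    (hCR : S_TR → S_SD → S_UN → S_AV2 → S_CR2) (hMX : S_MX2) (hBA : S_BA) (hPO : S_SD → S_PO)
    (hEX : S_EX) (hRE : S_EX → S_RE) (hAL : S_AL) (hGB : S_EX → S_GB) (hNS : S_EX → S_RE → S_AL → S_GB → S_NS)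
    (hKE : S_KE) (hMI : S_EX → S_NS → S_KE → S_MI) (hKZ : S_EX → S_KZ) (hLI : S_EX → S_NS → S_KZ → S_LI)
    (hEG : S_EX → S_MI → S_EG) (hIT : S_IT) (hNE : S_EX → S_KZ → S_IT → S_NE) (hLN : S_LN) (hGN : S_GN)
    (hDN : S_DN) : ∃ P : Set ℂ, IsConvexPolygon P ∧ TopMix P := by
  have h1 := hRE hEX
  have h2 := hGB hEX
  have h3 := hNS hEX h1 hAL h2
  have h4 := hMI hEX h3 hKE
  have h5 := hKZ hEX
  have h6 := hLI hEX h3 h5
  have h7 := hEG hEX h4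
  have h8 := hNE hEX h5 hIT
  have h9 : S_DE := hDN hSD hEX h6 h7 h8 hGN (hLN hTR hSD hEX)
  obtain ⟨a, b, v, α, hok, hd⟩ := hBA hSD (hCO hSD) h9
  exact ⟨Tb a b v α, hPO hSD a b v α hok, hMX hTR hRV hSD (hCO hSD) (hCR hTR hSD (hUN hTR hSD) hAV) a b v α hok hd⟩

end Pool.Agent.U856.BM
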