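import Mathlib

/-!
# Project BM: a convex pentagon with a topologically mixing billiard flow (definitions)
-/

set_option autoImplicit false

open Set Filter Topology ComplexConjugate

namespace Pool.Agent.U856.BM

/-- the dot product -/
def dt (z w : ℂ) : ℝ := z.re * w.re + z.im * w.im

/-- the cross product -/
def cr (z w : ℂ) : ℝ := z.re * w.im - z.im * w.re

/-- the reflection of the vector `e` in the line orthogonal to the unit vector `n` -/
noncomputable def rf (n e : ℂ) : ℂ := e - (2 * dt n e) • n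

/-- `z` is a boundary point of `P`, not a vertex, with outward unit normal `n` -/
def SidePt (P : Set ℂ) (z n : ℂ) : Prop :=
  z ∈ P ∧ dt n n = 1 ∧ ∃ r : ℝ, 0 < r ∧ ∀ w : ℂ, ‖w - z‖ < r → (w ∈ P ↔ dt n (w - z) ≤ 0)

/-- `Orb P x e t y f`: the billiard orbit in `P` which starts at `x` in the direction `e` is defined
up to the time `t`, and then it is at `y` and has the direction `f` (`x`, `y` interior points). -/
inductive Orb (P : Set ℂ) (x e : ℂ) : ℝ → ℂ → ℂ → Prop
  | start (t : ℝ) : 0 ≤ t → (∀ s ∈ Icc 0 t, x + s • e ∈ interior P) → Orb P x e t (x + t • e) e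
  | bounce (t s u : ℝ) (y f n : ℂ) : Orb P x e t y f → 0 < s → 0 < u →
      (∀ r ∈ Ico 0 s, y + r • f ∈ interior P) → SidePt P (y + s • f) n →
      (∀ r ∈ Ioc 0 u, y + s • f + r • rf n f ∈ interior P) →
      Orb P x e (t + s + u) (y + s • f + u • rf n f) (rf n f)

/-- the billiard flow of `P` is topologically mixing -/
def TopMix (P : Set ℂ) : Prop := ∀ x y e f : ℂ, x ∈ interior P → y ∈ interior P → ‖e‖ = 1 → ‖f‖ = 1 →
  ∀ ε : ℝ, 0 < ε → ∃ T : ℝ, ∀ t : ℝ, T ≤ t → ∃ x' e' y' f' : ℂ, ‖x' - x‖ < ε ∧ ‖e' - e‖ < ε ∧ ‖e'‖ = 1 ∧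
    ‖y' - y‖ < ε ∧ ‖f' - f‖ < ε ∧ Orb P x' e' t y' f'

/-- `P` is a convex polygon (the convex hull of finitely many points, not contained in a line) -/
def IsConvexPolygon (P : Set ℂ) : Prop :=
  (∃ s : Finset ℂ, P = convexHull ℝ (s : Set ℂ)) ∧ (interior P).Nonempty

/-! ### The table: a rectangle with the top right corner cut off. The cut off corner is the origin. -/

/-- the normals of the sides: left, bottom, right, cut, top -/
noncomputable def nS (α : ℝ) : Fin 5 → ℂ := ![-1, -Complex.I, 1, ⟨Real.sin α, Real.cos α⟩, Complex.I]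

/-- the offsets of the sides -/
def oS (a b v : ℝ) : Fin 5 → ℝ := ![a, b, 0, -v, 0]

/-- the vertices: side `j` joins the vertices `j` and `j + 1` -/
noncomputable def vS (a b v α : ℝ) : Fin 5 → ℂ :=
  ![⟨-a, 0⟩, ⟨-a, -b⟩, ⟨0, -b⟩, ⟨0, -(v / Real.cos α)⟩, ⟨-(v / Real.sin α), 0⟩]

/-- the table -/
def Tb (a b v α : ℝ) : Set ℂ := {z | ∀ j : Fin 5, dt (nS α j) z ≤ oS a b v j}

/-- the parameters which we use -/
def Ok (a b v α : ℝ) : Prop :=
  0.99 < a ∧ a < 1.01 ∧ 1.72 < b ∧ b < 1.75 ∧ 0.1 < v ∧ v < 0.11 ∧ 0.75 < α ∧ α < 0.82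

/-- the unit vector in the direction of the diagonal -/
noncomputable def dd (a b : ℝ) : ℂ := ⟨a / √(a ^ 2 + b ^ 2), b / √(a ^ 2 + b ^ 2)⟩

/-- the length of the orbits parallel to the diagonal -/
noncomputable def ll (a b : ℝ) : ℝ := 2 * √(a ^ 2 + b ^ 2)

/-- the vertex at which the separatrix starts (`vS 4`) -/
noncomputable def VV (v α : ℝ) : ℂ := ⟨-(v / Real.sin α), 0⟩

/-- the direction of the separatrix: the diagonal direction after the reflection in the cut -/
noncomputable def es (a b α : ℝ) : ℂ := rf (nS α 3) (dd a b)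

/-- at the time `s` the separatrix is at `y` and has the direction `f` -/
def Sep (a b v α s : ℝ) (y f : ℂ) : Prop :=
  ∃ s0 : ℝ, 0 < s0 ∧ (∀ r ∈ Ioc 0 s0, VV v α + r • es a b α ∈ interior (Tb a b v α)) ∧
    Orb (Tb a b v α) (VV v α + s0 • es a b α) (es a b α) (s - s0) y f

/-- the separatrix is dense, together with its time modulo the length `ll` -/
def Dns (a b v α : ℝ) : Prop := ∀ x e : ℂ, x ∈ interior (Tb a b v α) → ‖e‖ = 1 → ∀ φ ε : ℝ, 0 < ε →
  ∃ (s : ℝ) (y f : ℂ) (k : ℤ), Sep a b v α s y f ∧ ‖y - x‖ < ε ∧ ‖f - e‖ < ε ∧ |s - φ - k * ll a b| < ε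

/-! ### Chords. A state is a direction, encoded by the isometry `G i` which maps it to `dd`. -/

/-- states: `G (w, true) x = w x`, `G (w, false) x = w conj x` -/
abbrev St := ℂ × Bool

/-- the linear isometry of a state -/
noncomputable def G (i : St) (x : ℂ) : ℂ := i.1 * (if i.2 then x else conj x)

/-- the direction of a state: `G i (dir i) = dd` if `‖i.1‖ = 1` -/
noncomputable def dir (a b : ℝ) (i : St) : ℂ := if i.2 then conj i.1 * dd a b else i.1 * conj (dd a b)

/-- the transversal coordinate of the point `x` in the state `i` (constant on the chords) -/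
noncomputable def uu (a b : ℝ) (i : St) (x : ℂ) : ℝ := cr (dd a b) (G i x)

/-- the longitudinal coordinate of the point `x` in the state `i` -/
noncomputable def tt (a b : ℝ) (i : St) (x : ℂ) : ℝ := dt (dd a b) (G i x)

/-- the state after the reflection in the side `j` -/
noncomputable def rs (α : ℝ) (j : Fin 5) (i : St) : St :=
  (-(i.1 * (if i.2 then (nS α j) ^ 2 else conj ((nS α j) ^ 2))), !i.2)

/-- the chord with state `i` and transversal coordinate `u` leaves the table through the open side `j` -/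
def Exit (a b v α : ℝ) (i : St) (u : ℝ) (j : Fin 5) : Prop :=
  0 < dt (dd a b) (G i (nS α j)) ∧
    min (uu a b i (vS a b v α j)) (uu a b i (vS a b v α (j + 1))) < u ∧
    u < max (uu a b i (vS a b v α j)) (uu a b i (vS a b v α (j + 1)))

/-- the next chord; the third component is (time minus longitudinal coordinate) -/
def Stp (a b v α : ℝ) (z z' : St × ℝ × ℝ) : Prop :=
  ∃ j : Fin 5, Exit a b v α z.1 z.2.1 j ∧
    z' = (rs α j z.1, z.2.1 - 2 * oS a b v j * cr (dd a b) (G z.1 (nS α j)),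
      z.2.2 + 2 * oS a b v j * dt (dd a b) (G z.1 (nS α j)))

/-- the next chord, without the time -/
def Stq (a b v α : ℝ) (z z' : St × ℝ) : Prop :=
  ∃ j : Fin 5, Exit a b v α z.1 z.2 j ∧
    z' = (rs α j z.1, z.2 - 2 * oS a b v j * cr (dd a b) (G z.1 (nS α j)))

/-- the line with the transversal coordinate `u` in the state `i` meets the interior of the table -/
def InR (a b v α : ℝ) (i : St) (u : ℝ) : Prop :=
  (∃ k : Fin 5, uu a b i (vS a b v α k) < u) ∧ ∃ k : Fin 5, u < uu a b i (vS a b v α k)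

/-- the chord ends at the vertex `k` -/
def AtExit (a b v α : ℝ) (z : St × ℝ) (k : Fin 5) : Prop :=
  z.2 = uu a b z.1 (vS a b v α k) ∧ 0 < dt (dd a b) (G z.1 (nS α k)) ∧ 0 < dt (dd a b) (G z.1 (nS α (k - 1)))

/-- the chord starts at the vertex `k` -/
def AtEntry (a b v α : ℝ) (z : St × ℝ) (k : Fin 5) : Prop :=
  z.2 = uu a b z.1 (vS a b v α k) ∧ dt (dd a b) (G z.1 (nS α k)) < 0 ∧ dt (dd a b) (G z.1 (nS α (k - 1))) < 0

/-- the states which occur for `α = π h / q` -/
def Al (q : ℕ) (i : St) : Prop := i.1 ^ (2 * q) = 1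

/-- class zero: directions `± dd`, `± conj dd` -/
def C0 (i : St) : Prop := i.1 ^ 2 = 1

/-- generic parameters: algebraically independent over the algebraic numbers -/
def Gen (a b v : ℝ) : Prop := ∀ F : MvPolynomial (Fin 3) ℝ, (∀ m, IsAlgebraic ℚ (F.coeff m)) →
  MvPolynomial.eval ![a, b, v] F = 0 → F = 0

/-- `α = π h / q` with an odd prime `q`, generic lengths -/
def Rat (a b v α : ℝ) (h q : ℕ) : Prop :=
  Ok a b v α ∧ Gen a b v ∧ q.Prime ∧ 5 ≤ q ∧ α = Real.pi * h / q

/-- all the chords of the orbit have class zero -/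
def K0 (a b v α : ℝ) (z : St × ℝ) : Prop := ∀ z' : St × ℝ,
  (Relation.ReflTransGen (Stq a b v α) z z' ∨ Relation.ReflTransGen (Stq a b v α) z' z) → C0 z'.1

/-- the first state of the separatrix -/
noncomputable def i0 (α : ℝ) : St := rs α 3 (1, true)

/-- the first chord of the separatrix -/
noncomputable def zs (a b v α : ℝ) : St × ℝ × ℝ := (i0 α, uu a b (i0 α) (VV v α), -tt a b (i0 α) (VV v α))

end Pool.Agent.U856.BM
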