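import Pool.Agent.U856.BM.Defs

/-!
# Project BM, statements, first part: the flow, the cylinder, the Baire argument

The cylinder of the orbits parallel to the diagonal. Put `d = dd a b`, `p' = v / sin α`, `q' = v / cos α`,
`F (x, y) = - b x + a y`. Unfolded in the four reflected copies of the table around the origin the cut off part is
the rhombus `|x| sin α + |y| cos α ≤ v`, repeated with the periods `2 a`, `2 b i`.
-/

set_option autoImplicit false

open Set Filter Topology ComplexConjugate

namespace Pool.Agent.U856.BM

/-- **TR** Transitivity. Induction on the second orbit. For `start` extend the last straight piece of the first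
orbit (cases on the first orbit; a piece `[0, u]` and then `[u, u + s]` are in the interior). -/
def S_TR : Prop := ∀ (P : Set ℂ) (x e y f z g : ℂ) (t s : ℝ), Orb P x e t y f → Orb P y f s z g →
  Orb P x e (t + s) z g

/-- **RV** Time reversal. Induction and TR; `rf n (rf n f) = f`, `rf n (-f) = - rf n f` as `dt n n = 1`. -/
def S_RV : Prop := ∀ (P : Set ℂ) (x e y f : ℂ) (t : ℝ), Orb P x e t y f → Orb P y (-f) t x (-e)

/-- **SD** Sides. The interior of the table is given by the strict inequalities; a boundary point is a `SidePt`
if exactly one of the five inequalities is an equality, and then the normal is `nS α j`. (If two are equalities at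
`z`, `z` is a vertex and near `z` the set is a sector, not a half plane.) -/
def S_SD : Prop := ∀ a b v α : ℝ, Ok a b v α →
  (∀ z : ℂ, z ∈ interior (Tb a b v α) ↔ ∀ j : Fin 5, dt (nS α j) z < oS a b v j) ∧
  (∀ (z : ℂ) (j : Fin 5), dt (nS α j) z = oS a b v j → (∀ k : Fin 5, k ≠ j → dt (nS α k) z < oS a b v k) →
    SidePt (Tb a b v α) z (nS α j)) ∧
  (∀ z n : ℂ, SidePt (Tb a b v α) z n → ∃ j : Fin 5, n = nS α j ∧ dt (nS α j) z = oS a b v j ∧
    ∀ k : Fin 5, k ≠ j → dt (nS α k) z < oS a b v k)

/-- **CO** Continuity in the initial state, the time and the table. Induction on the orbit, with SD: `start`: the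
segment is compact and satisfies the five strict inequalities, which persist. `bounce`: the new orbit arrives at
`(y', f')` near `(y, f)` at the time `t` (induction); the ray from `y'` meets the same side line at a time near `s`
(`dt n f > 0` as the ray leaves through the side), the point satisfies the other four inequalities strictly, then
the reflected ray. The last duration is adapted so that the total time is `t'`. -/
def S_CO : Prop := ∀ (a b v α : ℝ) (x e y f : ℂ) (t : ℝ), Ok a b v α → ‖e‖ = 1 → Orb (Tb a b v α) x e t y f →
  ∀ ε : ℝ, 0 < ε → ∃ δ : ℝ, 0 < δ ∧ ∀ (a' b' v' α' t' : ℝ) (x' e' : ℂ), Ok a' b' v' α' →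
    |a' - a| < δ → |b' - b| < δ → |v' - v| < δ → |α' - α| < δ → |t' - t| < δ → 0 ≤ t' →
    ‖x' - x‖ < δ → ‖e' - e‖ < δ → ‖e'‖ = 1 →
    ∃ y' f' : ℂ, Orb (Tb a' b' v' α') x' e' t' y' f' ∧ ‖y' - y‖ < ε ∧ ‖f' - f‖ < ε

/-- the folding of the real line to `[-a, 0]` -/
noncomputable def fo (a x : ℝ) : ℝ := -|x - 2 * a * round (x / (2 * a))|

/-- **UN** Unfolding. A straight segment of the plane which, folded to the rectangle, avoids the cut off corner,
passes through no point of the grid `a ℤ + i b ℤ` and ends off the grid lines gives a billiard orbit in the table.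
Induction on the number of the grid lines which are crossed: follow the billiard orbit to the next grid line,
reflect there (SD), and use that the folding of the remaining segment is the folding of its mirror image; or
directly: let `T` be the supremum of the times up to which the claim is true. -/
def S_UN : Prop := ∀ (a b v α t : ℝ) (z g : ℂ), Ok a b v α → ‖g‖ = 1 → g.re ≠ 0 → g.im ≠ 0 → 0 ≤ t →
  z ∈ interior (Tb a b v α) →
  (∀ s ∈ Icc 0 t, fo a (z + s • g).re * Real.sin α + fo b (z + s • g).im * Real.cos α < -v) →
  (∀ s ∈ Icc 0 t, ¬ ((∃ k : ℤ, (z + s • g).re = k * a) ∧ ∃ k : ℤ, (z + s • g).im = k * b)) →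
  (∀ k : ℤ, (z + t • g).re ≠ k * a) → (∀ k : ℤ, (z + t • g).im ≠ k * b) →
  Orb (Tb a b v α) z g t ⟨fo a (z + t • g).re, fo b (z + t • g).im⟩
    ⟨(if Odd ⌊(z + t • g).re / a⌋ then 1 else -1) * g.re, (if Odd ⌊(z + t • g).im / b⌋ then 1 else -1) * g.im⟩

/-- the crossing segment: from the point `A` of the cut at the distance `η` from `VV` to the point `B` of the cut
of the copy with the centre `(-2 a (n + 1), -2 b n)` at the distance `η` from the image of `VV` -/
noncomputable def vA (v α η : ℝ) : ℂ := VV v α + η • ⟨Real.cos α, -Real.sin α⟩

noncomputable def vB (a b v α η : ℝ) (n : ℕ) : ℂ := ⟨-(2 * a * (n + 1)), -(2 * b * n)⟩ - vA v α η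

/-- **AV** The crossing segment avoids the rhombi. There is `η0 > 0` (independent of `n`) such that for all large
`n` and `0 < η < η0 / n` the points `z = vA + s (vB - vA)`, `0 < s < 1`, satisfy `|x - 2 a i| sin α + |y - 2 b j|
cos α > v` for all integers `i`, `j`. Proof. `F (x,y) = - b x + a y` is affine on the segment, from `F (vA) = b p' -
η κ` to `F (vB) = 2 a b - b p' + η κ`, `κ = b cos α + a sin α`. On the rhombus with the centre `c` we have `|F - F (c)|
≤ b p'` (`tan α < b / a`), and `F (c)` is a multiple of `2 a b`. So only the centres with `F (c) = 0`, that is `(-2 a m,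
-2 b m)`, and `F (c) = 2 a b`, `(-2 a (m + 1), -2 b m)`, matter. The part of the segment with `F < b p'` is shorter
than half the period `ll` (if `η κ < (a b - b p') / n`, roughly), starts on the lower left side of the rhombus around `0`
and goes away from it (down left); the part with `F > 2 a b - b p'` is short too and comes to the upper right side of the
last rhombus from outside. -/
def S_AV : Prop := ∀ a b v α : ℝ, Ok a b v α → ∃ η0 : ℝ, 0 < η0 ∧ ∃ N : ℕ, ∀ n : ℕ, N ≤ n → ∀ η : ℝ, 0 < η →
  η < η0 / n → ∀ s : ℝ, 0 < s → s < 1 → ∀ i j : ℤ,
    v < |(vA v α η + s • (vB a b v α η n - vA v α η)).re - 2 * a * i| * Real.sin α +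
      |(vA v α η + s • (vB a b v α η n - vA v α η)).im - 2 * b * j| * Real.cos α

/-- **CR** Crossing the cylinder: `n` turns. There are orbits which come to the cut near `VV` along the reversed
separatrix, turn about `n` times in the cylinder and leave along the separatrix; the time is `n ll + c0 + o(1)`, `c0 = 2
(a - p') a / √(a² + b²)`. Proof (from TR, SD, UN, AV). Take `η < η0 / n` small such that the segment from `vA` to `vB`
meets no point of the grid `a ℤ + i b ℤ` (finitely many values of `η` are excluded: each of the finitely many grid
points in question is not on the segment for all but one `η`, as the slope of the segment from `vA` to `vB` and the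
position change with `η`). `g = (vB - vA) / |vB - vA|` tends to `- dd`. Its folded image is in the table (`fo a x = -|x - 2 a i|`
for the nearest `i`). Both ends are on the cut: the folded end point is `vA` and the folded direction there is `-g`.
The orbit which starts at `x' + u e'`, `x' = vA`, `e' = rf n (-g)`, goes to `vA`, is reflected to `g`, follows the segment
and is reflected at `x = vA` to `e = rf n (-g)`, which tends to `es`. -/
def S_CR : Prop := ∀ a b v α : ℝ, Ok a b v α → ∀ ε : ℝ, 0 < ε → ∃ N : ℕ, ∀ n : ℕ, N ≤ n → ∃ (x e : ℂ) (t u0 : ℝ),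
  ‖x - VV v α‖ < ε ∧ ‖e - es a b α‖ < ε ∧ ‖e‖ = 1 ∧ dt (nS α 3) x = -v ∧ x.im < 0 ∧ 0 < u0 ∧
  |t - (n * ll a b + 2 * (a - v / Real.sin α) * a / √(a ^ 2 + b ^ 2))| < ε ∧
  ∀ u u' : ℝ, 0 < u → u < u0 → 0 < u' → u' < u0 →
    Orb (Tb a b v α) (x + u' • e) (-e) (u' + t + u) (x + u • e) e

/-- **MX** From the dense separatrix to mixing. Let `x, y` be interior, `e, f` directions. By `Dns` there is a time `s'`
with `Sep s' x1 (-e1)` (so flip `e`), `(x1, -e1)` near `(x, -e)`, and finitely many times `s_i` with `Sep s_i y_i f_i`,
`(y_i, f_i)` near `(y, f)`, whose phases modulo `ll` are `ε`-dense. Reverse the first piece (RV). For large `n` take the crossing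
orbit of CR; its last state `(x + u e, e)` is near `(VV + u es, es)`, so by CO (fix `s0 > 0` from `Sep`, `x + r e` is
interior for `0 < r ≤ s0` by convexity) it follows the separatrix up to the time `s_i + τ`, `|τ|` small; in the same way its
reversal follows the separatrix up to the time `s'`. Together (TR) an orbit from near `(x, e)` to near `(y, f)` of
length `s' + t_n + s_i + τ`, and every large time is of this form. -/
def S_MX : Prop := S_TR → S_RV → S_SD → S_CO → S_CR → ∀ a b v α : ℝ, Ok a b v α → Dns a b v α →
  TopMix (Tb a b v α)

/-- **DE** (conclusion of the second part) Density: near all parameters there are parameters for which the separatrix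
comes near to a given state at a given phase. -/
def S_DE : Prop := ∀ (a b v α : ℝ) (x e : ℂ) (φ ε : ℝ), Ok a b v α → x ∈ interior (Tb a b v α) → ‖e‖ = 1 → 0 < ε →
  ∃ a' b' v' α' : ℝ, Ok a' b' v' α' ∧ |a' - a| < ε ∧ |b' - b| < ε ∧ |v' - v| < ε ∧ |α' - α| < ε ∧
    ∃ (s : ℝ) (y f : ℂ) (k : ℤ), Sep a' b' v' α' s y f ∧ ‖y - x‖ < ε ∧ ‖f - e‖ < ε ∧ |s - φ - k * ll a' b'| < ε

/-- **BA** Baire. `O = {p | Ok p}` is open in `ℝ⁴`. For `x, e, φ` in countable dense sets and `ε = 1 / m` the set of the
parameters with `∃ s y f k, Sep s y f ∧ ‖y - x‖ < ε ∧ ‖f - e‖ < ε ∧ |s - φ - k ll| < ε`, or `x` not in the closed table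
(an open condition), is open (CO, SD: `Sep` is stable, also the starting point `VV` and the direction `es` depend
continuously on the parameters, the initial segment is in the interior as `es` points into the table) and its union
with the interior of the set where `x` is not an interior point is dense in `O` (DE). A point of the intersection
satisfies `Dns` (for an arbitrary interior `x` take a rational point near it). Baire category theorem in the open subset
`O` of the complete space `ℝ⁴` (or a direct nested choice of closed balls). -/
def S_BA : Prop := S_SD → S_CO → S_DE → ∃ a b v α : ℝ, Ok a b v α ∧ Dns a b v α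

/-- **PO** The table is the convex hull of the five vertices and has interior points. -/
def S_PO : Prop := ∀ a b v α : ℝ, Ok a b v α → IsConvexPolygon (Tb a b v α)

end Pool.Agent.U856.BM
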