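import Pool.Agent.U856.BM.Stm1

/-!
# Project BM, statements, second part: rational tables

`α = π h / q`, `q` an odd prime. A state `i = (w, τ)` stands for the isometry `G i` (`x ↦ w x` or `w conj x`), the
direction of the motion in the table is `e = dir a b i` with `G i e = d = dd a b`. A chord is a state `i` and its
transversal coordinate `u = uu a b i x = cr d (G i x)`, `x` on the chord. `G (rs α j i) x = G i (x - 2 (dt n x) n)`, `n = nS
α j`, and `dt e x = dt d (G i x)`. In the notation `w = ± exp (I x)`, `d = exp (I θ)` we have `|re e| = |cos (θ - x)|`,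
`|im e| = |sin (θ - x)|`, and `w` changes only by the sign at the sides `0, 1, 2, 4`, and `x` by `∓ 2 α` at the cut 3.
`59.5° < θ < 60.6°`, `42.9° < α < 47°`.
-/

set_option autoImplicit false

open Set Filter Topology ComplexConjugate

namespace Pool.Agent.U856.BM

open Relation

/-- **EX** Exits and entries. By `Gen` and `Al` the direction is not parallel to a side: `dt d (G i n) ≠ 0` for all
normals `n` (otherwise `d = ± I w ...` would be algebraic, and `b / a` too). The boundary of the convex pentagon is divided
into the chain of the exit sides (`dt d (G i n) > 0`) and the chain of the entry sides, and `uu a b i` is strictly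
monotone along each of them (side `j` from the vertex `j` to the vertex `j + 1` is a positive multiple of `I n_j`). `rs α j`
is an involution, and `G (rs α j i) (n_j) = - G i (n_j)`, so the entry sides of the new state contain `j`. -/
def S_EX : Prop := ∀ (a b v α : ℝ) (h q : ℕ), Rat a b v α h q → ∀ (i : St) (u : ℝ), Al q i →
  (InR a b v α i u → (∃ j, Exit a b v α i u j) ∨ ∃ k, AtExit a b v α (i, u) k) ∧
  (∀ j j', Exit a b v α i u j → Exit a b v α i u j' → j = j') ∧
  (∀ j, Exit a b v α i u j → InR a b v α i u ∧ Al q (rs α j i) ∧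
    InR a b v α (rs α j i) (u - 2 * oS a b v j * cr (dd a b) (G i (nS α j)))) ∧
  (∀ k, AtExit a b v α (i, u) k → ¬ ∃ j, Exit a b v α i u j) ∧
  (InR a b v α i u → (∃ z : St × ℝ, Al q z.1 ∧ Stq a b v α z (i, u)) ∨ ∃ k, AtEntry a b v α (i, u) k) ∧
  (∀ z z' : St × ℝ, Stq a b v α z (i, u) → Stq a b v α z' (i, u) → z = z') ∧
  (∀ z : St × ℝ, Stq a b v α z (i, u) → Al q z.1) ∧
  (∀ k, AtEntry a b v α (i, u) k → ¬ ∃ z : St × ℝ, Stq a b v α z (i, u)) ∧
  (∀ j, dt (dd a b) (G i (nS α j)) ≠ 0)

/-- time reversal of chords -/
def rev (z : St × ℝ) : St × ℝ := ((-z.1.1, z.1.2), -z.2)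

/-- **RE** Time reversal (`G (-w, τ) = - G (w, τ)`). -/
def S_RE : Prop := ∀ (a b v α : ℝ) (h q : ℕ), Rat a b v α h q → ∀ z z' : St × ℝ, Al q z.1 →
  (Stq a b v α z z' → Stq a b v α (rev z') (rev z)) ∧ Al q (rev z).1 ∧
  (∀ k, AtExit a b v α z k → AtEntry a b v α (rev z) k) ∧ (∀ k, AtEntry a b v α z k → AtExit a b v α (rev z) k)

/-- the vertex `k` is on the side `s` -/
def onSide (k s : Fin 5) : Prop := k = s ∨ k = s + 1

/-- a sequence of reflections with sides `j k`, `k < N`, which are passed outwards in the unfolded picture -/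
def Pth (a b α : ℝ) (N : ℕ) (i : ℕ → St) (j : ℕ → Fin 5) : Prop :=
  ∀ k < N, i (k + 1) = rs α (j k) (i k) ∧ 0 < dt (dd a b) (G (i k) (nS α (j k)))

/-- the path is closed (`ks = ke = none`), or it joins the vertices `ks` and `ke` -/
def Clo (a b v α : ℝ) (N : ℕ) (i : ℕ → St) (j : ℕ → Fin 5) (ks ke : Option (Fin 5)) : Prop :=
  (ks = none ∧ ke = none ∧ 1 ≤ N ∧ i N = i 0 ∧
    ∑ k ∈ Finset.range N, 2 * oS a b v (j k) * cr (dd a b) (G (i k) (nS α (j k))) = 0) ∨
  ∃ w w' : Fin 5, ks = some w ∧ ke = some w' ∧ (∀ s, onSide w s → dt (dd a b) (G (i 0) (nS α s)) < 0) ∧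
    (∀ s, onSide w' s → 0 < dt (dd a b) (G (i N) (nS α s))) ∧
    uu a b (i 0) (vS a b v α w) - ∑ k ∈ Finset.range N, 2 * oS a b v (j k) * cr (dd a b) (G (i k) (nS α (j k))) =
      uu a b (i N) (vS a b v α w')

/-- `n` is an unfolded normal of the side `s` at a reflection or at an end point of the path -/
def Occ (α : ℝ) (N : ℕ) (i : ℕ → St) (j : ℕ → Fin 5) (ks ke : Option (Fin 5)) (s : Fin 5) (n : ℂ) : Prop :=
  (∃ k < N, j k = s ∧ n = G (i k) (nS α s)) ∨ (∃ w, ks = some w ∧ onSide w s ∧ n = -G (i 0) (nS α s)) ∨
    ∃ w, ke = some w ∧ onSide w s ∧ n = G (i N) (nS α s)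

/-- **AL** The algebraic lemma. Proof. The hypothesis says `cr d H = 0` for `H = G (i N) w' - G (i 0) w + ∑ 2 o_j G (i k) n_j`
(without the first two terms for closed paths), and `H = a H_a + b H_b + v H_v` with algebraic numbers (complex
numbers with algebraic real and imaginary parts; sums of roots of unity and of multiples of `1 / sin α`, `1 / cos α`), where
`H_a = ∑_{j k = 0} 2 G (i k) n_0` + (`G (i N) n_0` if `w'` is on the side 0) - (`G (i 0) n_0` if `w` is), and `H_b`
the same for the side 1. `(a + I b) / |..| = d`, so `b re H - a im H = 0` is a quadratic polynomial relation for `a, b, v` with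
algebraic coefficients; by `Gen` its coefficients are zero: coefficient of `a²`: `im H_a = 0`; of `b²`: `re H_b = 0`. So
`∑ c n.im = 0`, the sum over all the occurrences for the side 0 with weights `c ∈ {1, 2}`; the `n` are in the group
`μ` of the `2 q`-th roots of unity, `dt d n > 0` for all of them, so `n` and `-n` do not both occur. Write `n = ± ζ^m`, `ζ =
exp (2 π I / q)`, `C m` the signed sum of the weights. `∑ C m (ζ^m - ζ^(-m)) = 0` and the only linear relation over `ℚ`
between `1, ζ, ..., ζ^(q-1)` is that their sum is zero (`q` prime), so `C m - C (-m)` is constant, hence zero, and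
`conj n` occurs if `n` does. For the side 1 the normals are `I μ`: `-conj n` occurs with `n`. -/
def S_AL : Prop := ∀ (a b v α : ℝ) (h q : ℕ), Rat a b v α h q → ∀ (N : ℕ) (i : ℕ → St) (j : ℕ → Fin 5)
  (ks ke : Option (Fin 5)), Al q (i 0) → Pth a b α N i j → Clo a b v α N i j ks ke →
  (∀ s n, Occ α N i j ks ke s n → 0 < dt (dd a b) n) ∧
  (∀ n, Occ α N i j ks ke 0 n → Occ α N i j ks ke 0 (conj n)) ∧
  (∀ n, Occ α N i j ks ke 1 n → Occ α N i j ks ke 1 (-conj n))

/-- **GB** A shallow chord which starts on the closed cut moves to the left and comes to the left side (directly or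
after one reflection in the top side), before the bottom side. `dt d (G i 1) = re e`, `dt d (G i I) = im e`. (`tan α > 0.9
> 0.7`: so `dt e n_3 < 0` forces `re e < 0`; starting height at least `-0.17`, so above `-0.17 - 0.71 > -b` at `x = -a`.) -/
def S_GB : Prop := ∀ (a b v α : ℝ) (h q : ℕ), Rat a b v α h q → ∀ (i : St) (u : ℝ), Al q i →
  |dt (dd a b) (G i Complex.I)| ≤ 0.7 * |dt (dd a b) (G i 1)| → dt (dd a b) (G i (nS α 3)) < 0 →
  min (uu a b i (vS a b v α 3)) (uu a b i (vS a b v α 4)) ≤ u →
  u ≤ max (uu a b i (vS a b v α 3)) (uu a b i (vS a b v α 4)) →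
  (∀ k, AtExit a b v α (i, u) k → k = 0 ∨ k = 1) ∧
  ∀ j, Exit a b v α i u j → j = 0 ∨ (j = 4 ∧
    (∀ k, AtExit a b v α (rs α 4 i, u - 2 * oS a b v 4 * cr (dd a b) (G i (nS α 4))) k → k = 0 ∨ k = 1) ∧
    ∀ j', Exit a b v α (rs α 4 i) (u - 2 * oS a b v 4 * cr (dd a b) (G i (nS α 4))) j' → j' = 0)

/-- **NS** No saddle connections and no periodic chords outside class zero. Proof from EX, RE, AL, GB. Take the path of
sides `j k` of a saddle connection or of a periodic orbit; AL applies. A stay is a maximal part of the path without
reflection in the cut (side 3). (A) In each stay the side 0 or 1 occurs (`Occ`): the vertices 0, 1, 2 are on these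
sides; otherwise the stay starts at the cut or at the vertices 3, 4 (`dt e n_3 < 0`), ends there (`dt e n_3 > 0`) and has only
reflections in the sides 2, 4, which make `dt e n_3` smaller; for a closed path without reflection in the cut there
are reflections in the sides 0 or 1 as well (the sides 2, 4 alone make `re e`, `im e` negative forever). (B) Call a class
(`w` up to sign, `w = ± exp (I x)`) L-allowed if `sin² x < cos² θ` and B-allowed if `sin² x < sin² θ`. If the side 0 occurs in
the class then it is L-allowed, as `dt d n > 0` and `dt d (conj n) > 0`; same for side 1 and B-allowed. (C) Suppose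
that the path has a reflection in the cut. Then each stay starts or ends with such a reflection. A stay in a class with
`|im e| ≤ 0.7 |re e|` contains an occurrence of the side 0 (GB for a start at the cut, and RE for an end). Suppose that a
class of the path is not L-allowed. Then it is B-allowed and side 1 occurs, so `90° - θ ≤ |x| < θ` (modulo 180°). If `x > 0`
then `|θ - x| ≤ 2 θ - 90° < 32°`, so the class is shallow, the side 0 occurs, it is L-allowed, contradiction. If `x < 0` then
by AL the side 1 occurs in the class `-x`, and this class is shallow, contradiction in the same way. So all the classes have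
`sin² x < cos² θ`, `|x| < 30.5°`. But a reflection in the cut changes `x` by `2 α ∈ (85.9°, 94°)`: contradiction. (D) So there
is no reflection in the cut and only one class; if `n` occurs for the side 0 then `n = ± w` and `conj n = ± w`, so `w⁴ = 1`, and
`w² = 1` as `q` is odd. Same for the side 1. -/
def S_NS : Prop := ∀ (a b v α : ℝ) (h q : ℕ), Rat a b v α h q →
  (∀ z0 z z1 : St × ℝ, Al q z0.1 → ReflTransGen (Stq a b v α) z0 z → ReflTransGen (Stq a b v α) z z1 →
    (∃ k, AtEntry a b v α z0 k) → (∃ k, AtExit a b v α z1 k) → C0 z.1) ∧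
  ∀ z : St × ℝ, Al q z.1 → TransGen (Stq a b v α) z z → C0 z.1

/-- **KE** Abstract Keane lemma. `R` is an interval exchange on finitely many intervals `(l i, r i)` (injective, piecewise
translation, defined together with its inverse off finite sets). `N` open and invariant, `y` an end point of a component
of `N`. Then the forward orbit of `y` ends or is periodic, and the same backwards. Proof. By the symmetries it suffices to
treat right neighbourhoods and the forward orbit. Suppose that the orbit `y_k` of `y` is infinite and not periodic; by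
injectivity the points `y_k` are distinct. Let `J_k = (y_k, y_k + ρ_k)` be the component of `N` to the right of `y_k` (`ρ_k > 0`
by induction, as `y_k` is in the interior of a piece and `N` is invariant). The `J_k` are disjoint. Only finitely many of them
contain a point without image or a point without preimage, or end at an end point of an interval `(l i, r i)` or of a piece
or of an image of a piece; so from some `k` on `R` maps `J_k` onto `J_(k+1)` and `ρ_k` is constant, impossible as the total
length is finite. -/
def S_KE : Prop := ∀ (ι κ : Type) [Finite ι] [Finite κ] (R : ι × ℝ → ι × ℝ → Prop) (src tgt : κ → ι)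
  (lo hi c : κ → ℝ) (l r : ι → ℝ),
  (∀ z z', R z z' ↔ ∃ k, z.1 = src k ∧ lo k < z.2 ∧ z.2 < hi k ∧ z' = (tgt k, z.2 + c k)) →
  (∀ z z' z'', R z z' → R z z'' → z' = z'') → (∀ z z' z'', R z' z → R z'' z → z' = z'') →
  (∀ k, lo k < hi k → l (src k) ≤ lo k ∧ hi k ≤ r (src k) ∧ l (tgt k) ≤ lo k + c k ∧ hi k + c k ≤ r (tgt k)) →
  {z : ι × ℝ | l z.1 < z.2 ∧ z.2 < r z.1 ∧ ¬ ∃ z', R z z'}.Finite →
  {z : ι × ℝ | l z.1 < z.2 ∧ z.2 < r z.1 ∧ ¬ ∃ z', R z' z}.Finite →
  ∀ N : Set (ι × ℝ), (∀ i, IsOpen {u : ℝ | (i, u) ∈ N}) → (∀ z ∈ N, l z.1 < z.2 ∧ z.2 < r z.1) →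
  (∀ z z', R z z' → (z ∈ N ↔ z' ∈ N)) → ∀ y : ι × ℝ, l y.1 < y.2 → y.2 < r y.1 → y ∉ N →
  (∃ ε : ℝ, 0 < ε ∧ ((∀ u, y.2 < u → u < y.2 + ε → (y.1, u) ∈ N) ∨ ∀ u, y.2 - ε < u → u < y.2 → (y.1, u) ∈ N)) →
  ((∃ z, ReflTransGen R y z ∧ ¬ ∃ z', R z z') ∨ TransGen R y y) ∧
  ((∃ z, ReflTransGen R z y ∧ ¬ ∃ z', R z' z) ∨ TransGen R y y)

/-- open sets of chords which are invariant -/
def Inv (a b v α : ℝ) (q : ℕ) (N : Set (St × ℝ)) : Prop :=
  (∀ i : St, IsOpen {u : ℝ | (i, u) ∈ N}) ∧ (∀ z ∈ N, Al q z.1 ∧ InR a b v α z.1 z.2) ∧
    ∀ z z' : St × ℝ, Al q z.1 → Stq a b v α z z' → (z ∈ N ↔ z' ∈ N)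

/-- **MI** Minimality. Proof from EX, NS, KE. (1) Let `¬ C0 i`. If `N` contains some but not all chords of the state `i` then a
component of `N` has an end point `y` in the open range of `i`; by KE (index set: the finite set `{i | Al q i}`, pieces: the
exits through the sides) and EX the orbit of `y` goes from an entry vertex to an exit vertex or is periodic, so `C0 i` by NS.
(2) If `j` is an exit side of `i` then the states `i` and `rs α j i` (both not `C0`) are both contained in `N` or both disjoint
from `N`, as the set of the exits through `j` is a nonempty interval. (3) All the states outside `C0` are connected: at the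
sides 0 or 2 (one of them is an exit) `(w, τ) ↦ (-w, !τ)`, at 1 or 4 `(w, τ) ↦ (w, !τ)`, and for exactly one of `± w` the side
3 is an exit of `(w, true)` and leads to `(w exp (-2 I α), false)`; `exp (-4 I α)` generates the `q`-th roots of unity, so the
classes `w²` different from 1 are connected by such steps: `g, g², ..., g^(q-1)`. (4) A chord which is not in `K0` has an orbit
which passes through a state outside `C0`. -/
def S_MI : Prop := ∀ (a b v α : ℝ) (h q : ℕ), Rat a b v α h q → ∀ N : Set (St × ℝ), Inv a b v α q N →
  (∀ z : St × ℝ, Al q z.1 → InR a b v α z.1 z.2 → ¬ K0 a b v α z → z ∈ N) ∨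
  ∀ z : St × ℝ, Al q z.1 → InR a b v α z.1 z.2 → ¬ K0 a b v α z → z ∉ N

/-- **LI** The orbit of the separatrix is infinite and has a limit point outside `C0`. Proof from EX, NS. `zs` is `AtEntry 4`
and in the range (the direction `es` points into the table at `VV`), `i0 = (exp (-2 I α), false)` is not in `C0`, so by NS the
orbit never comes to an exit vertex. It is in states outside `C0` infinitely often (if it were in `C0` from some time on, then
as after at most 5 chords it is reflected at the cut, which leaves `C0`, or it is periodic: the cylinder; but it is injective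
and starts outside `C0`). Take a state outside `C0` and a limit point `u` of the coordinates in the closed range. If `u` is in the
open range we are done. Otherwise `u = uu i (vertex k)` is an end of the range: the chords cut the corner `k`, coming from one
adjacent side `j'` and leaving through the other one `j`. One of the two is not the cut. The interior angles are at least 90°
(`dt n_j n_j' ≥ 0`), so after (before) the reflection in that side the line through the vertex goes into the table: the next
(previous) chords have a limit point in the open range, in the same class. -/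
def S_LI : Prop := ∀ (a b v α : ℝ) (h q : ℕ), Rat a b v α h q → ∃ z : ℕ → St × ℝ × ℝ, z 0 = zs a b v α ∧
  (∀ n, Stp a b v α (z n) (z (n + 1))) ∧ ∃ (i : St) (u : ℝ), Al q i ∧ ¬ C0 i ∧ InR a b v α i u ∧
    ∀ ε : ℝ, 0 < ε → ∀ n, ∃ m, n ≤ m ∧ (z m).1 = i ∧ |(z m).2.1 - u| < ε

/-- an eigenfunction with the eigenvalue `k / ll` on the complement of `K0` -/
def Eig (a b v α : ℝ) (q k : ℕ) (F : St × ℝ → ℂ) : Prop :=
  (∀ z : St × ℝ, Al q z.1 → InR a b v α z.1 z.2 → ¬ K0 a b v α z → ‖F z‖ = 1) ∧
  (∀ (i : St) (u : ℝ), Al q i → InR a b v α i u → ¬ K0 a b v α (i, u) → ContinuousAt (fun u' => F (i, u')) u) ∧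
  ∀ z z' : St × ℝ × ℝ, Al q z.1 → ¬ K0 a b v α (z.1, z.2.1) → Stp a b v α z z' →
    F (z'.1, z'.2.1) = Complex.exp (2 * Real.pi * Complex.I * k * (z'.2.2 - z.2.2 : ℝ) / (ll a b : ℝ)) * F (z.1, z.2.1)

/-- **EG** If the phases of an orbit are not dense there is an eigenfunction. Proof from EX, MI. Let `X` be the set of the chords
(`Al`, `InR`) not in `K0` (open, invariant; a chord with no successor or predecessor may be in it), `S¹ = ℝ / ll ℤ` and `Z ⊆ X ×
S¹` the set of the limit points of the sequence `z n` (third component modulo `ll`); `Z` is closed in `X × S¹`, and invariant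
under the step `(x, θ) ↦ (x', θ + r)` and its inverse where they are defined. For `ρ ≥ 0` let `Z^ρ` be the `ρ`-neighbourhood of `Z` in the
direction of `S¹` (closed, invariant). The length `g(x)` of the fibre `Z^ρ_x` is an upper semicontinuous invariant function, so by MI
(for the sets `{g < c}` intersected with `X`) it is constant on `X`. `Z_x` is not empty for some `x` (hypothesis: limit point),
so the constant is positive for `ρ > 0` and every fibre of `Z` is not empty (fibres of closed sets, `ρ → 0`); by hypothesis
some fibre of `Z` omits an interval, so for small `ρ` the constant is less than `ll`. Upper semicontinuity of the closed sets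
`Z^ρ_x` and constant length imply that `x ↦ 1_{Z^ρ_x} ∈ L¹(S¹)` is continuous. So the Fourier coefficients `c_k(x) = ∫_{Z^ρ_x} exp
(2 π I k θ / ll) dθ` are continuous and `c_k (x') = exp (2 π I k r / ll) c_k (x)`; `|c_k|` is continuous and invariant, so
constant by MI; for some `k ≠ 0` it is not zero (a set of length strictly between 0 and `ll` has a nonconstant indicator
function). If `k < 0` take the conjugate. `F = c_k / |c_k|`. -/
def S_EG : Prop := ∀ (a b v α : ℝ) (h q : ℕ), Rat a b v α h q → ∀ z : ℕ → St × ℝ × ℝ,
  (∀ n, Al q (z n).1) → (∀ n, Stp a b v α (z n) (z (n + 1))) →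
  (∃ (i : St) (u : ℝ), Al q i ∧ ¬ C0 i ∧ InR a b v α i u ∧ ∀ ε : ℝ, 0 < ε → ∀ n, ∃ m, n ≤ m ∧ (z m).1 = i ∧
    |(z m).2.1 - u| < ε) →
  (∀ (i : St) (u φ ε : ℝ), Al q i → ¬ C0 i → InR a b v α i u → 0 < ε → ∃ (n : ℕ) (k : ℤ), (z n).1 = i ∧
    |(z n).2.1 - u| < ε ∧ |(z n).2.2 - φ - k * ll a b| < ε) ∨
  ∃ (k : ℕ) (F : St × ℝ → ℂ), 1 ≤ k ∧ Eig a b v α q k F

/-- **KZ** The chords of class zero in `K0`, explicitly. With `L = √(a² + b²)`, `p' = v / sin α`: `L uu i x = F (G i x)`, `F (x, y) = - b
x + a y`. In class zero `G i x` is the reflected copy of `x` around the origin, the motion is parallel to `d` in the torus with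
the periods `2 a`, `2 b i`, the value of `F` modulo `2 a b` is constant, and the cut is the boundary of the rhombus
`|x| sin α + |y| cos α ≤ v`, on which `|F| ≤ b p'`, with equality only at the vertices `(± p', 0)`. A line with `|F| < b p'` modulo
`2 a b` meets the interior of the rhombus, so forwards or backwards (if it does not end at a vertex or at a corner of the
rectangle before) it is reflected in the cut, which leaves class zero; check that in all cases at least one of the two
happens. A line with `|F| ≥ b p'` does not. -/
def S_KZ : Prop := ∀ (a b v α : ℝ) (h q : ℕ), Rat a b v α h q → ∀ (i : St) (u : ℝ), Al q i → InR a b v α i u →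
  (K0 a b v α (i, u) ↔ C0 i ∧ ∀ m : ℤ, b * v / Real.sin α ≤ |√(a ^ 2 + b ^ 2) * u - 2 * a * b * m|)

/-- **IT** Abstract integration lemma. Proof. Lift: `f i u = exp (2 π I g i u)` with `g i` continuous on the interval `(A i, B i)`.
Then `g (tgt) (u + c) - g (src) u - ρ` is an integer and continuous on the piece, so a constant `n`. Let `T` be the exchange
and `φ = g ∘ T - g`, a bounded function. For the truncations `g_M = max (-M) (min g M)`: `∫ (g_M ∘ T - g_M) = 0` as `T` preserves the
Lebesgue measure (the sources are disjoint and fill the intervals up to finitely many points, and the targets too), `|g_M ∘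
T - g_M| ≤ |φ|`, and dominated convergence. -/
def S_IT : Prop := ∀ (ι κ : Type) [Fintype ι] [Fintype κ] (A B : ι → ℝ) (src tgt : κ → ι) (lo hi c ρ : κ → ℝ)
  (f : ι → ℝ → ℂ), (∀ i, A i ≤ B i) → (∀ k, lo k ≤ hi k) →
  (∀ k, lo k < hi k → A (src k) ≤ lo k ∧ hi k ≤ B (src k) ∧ A (tgt k) ≤ lo k + c k ∧ hi k + c k ≤ B (tgt k)) →
  (∀ k k' u, k ≠ k' → src k = src k' → lo k < u → u < hi k → lo k' < u → ¬ u < hi k') →
  (∀ k k' u, k ≠ k' → tgt k = tgt k' → lo k + c k < u → u < hi k + c k → lo k' + c k' < u → ¬ u < hi k' + c k') →
  {z : ι × ℝ | A z.1 < z.2 ∧ z.2 < B z.1 ∧ ¬ ∃ k, src k = z.1 ∧ lo k < z.2 ∧ z.2 < hi k}.Finite →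
  (∀ i u, A i < u → u < B i → ‖f i u‖ = 1 ∧ ContinuousAt (f i) u) →
  (∀ k u, lo k < u → u < hi k →
    f (tgt k) (u + c k) = Complex.exp (2 * Real.pi * Complex.I * (ρ k : ℝ)) * f (src k) u) →
  ∃ n : κ → ℤ, ∑ k, (hi k - lo k) * (ρ k + n k) = 0

/-- **NE** There is no eigenfunction. Proof from EX, KZ, IT. Apply IT to the components of the complement of `K0`: for a state
outside `C0` the whole range, for a state of `C0` the nonempty intervals `|L u - 2 a b m| < b p'` cut with the range, `|m| ≤ 2`;
the pieces are the intersections with the exit intervals and the preimages of the components of the target. All the end points of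
the pieces are of the form `Q (a, b, v) / L` with quadratic forms `Q` with algebraic coefficients and without the term `v²`,
and `ρ = k r / ll = k o_j dt (a + I b) (G i n_j) / L²`, `r = 2 o_j dt d (G i n_j)`. (Order the finitely many end points by
their actual order; then all the lengths are forms of this kind.) Multiply the relation of IT by `L³`: a polynomial of
degree 4 in `a, b, v` with algebraic coefficients vanishes at `(a, b, v)`, so it is zero by `Gen`. Its coefficient of `v²` (a
polynomial in `a, b`): only the side 3 contributes (`o_3 = -v`; `o_0 = a`, `o_1 = b`, `o_2 = o_4 = 0`; the terms with the integers `n` have no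
`v²`), all the exits through the side 3 are outside `K0`, their total length for the state `i` is `v dt (a + I b) (G i n_3) /
(L sin α cos α)` if this is positive. So it is `- k / (sin α cos α) ∑_i (dt (a + I b) (G i n_3))²`, the sum over the states `i` with
`Al q i` and `dt (a + I b) (G i n_3) > 0`, which is negative: contradiction. -/
def S_NE : Prop := ∀ (a b v α : ℝ) (h q : ℕ), Rat a b v α h q → ∀ (k : ℕ) (F : St × ℝ → ℂ), 1 ≤ k →
  ¬ Eig a b v α q k F

/-- **LN** The link between the chords and the flow. `Stp` at the side `j`: if the chord `(i, u)` passes at the time `s` at the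
longitudinal coordinate `t = dt d (G i x)`, then `z.2.2 = s - t` is constant along the chord, and at the reflection in the side
`j` the coordinate `t` changes by `- 2 o_j dt d (G i n_j)`. Proof by induction on the orbit of chords: for `y` in the interior
of the table on the chord, `Sep` at the time `z.2.2 + tt i y`. Start: `VV` is on the chord `zs` at the time 0, and `es = dir (i0)`
points into the table. Step: extend the orbit to the exit point (inside the open side `j`, a `SidePt` by SD), reflect; the
direction is `dir (rs α j i) = rf (nS α j) (dir i)`. -/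
def S_LN : Prop := S_TR → S_SD → S_EX → ∀ (a b v α : ℝ) (h q : ℕ), Rat a b v α h q → ∀ z : St × ℝ × ℝ,
  ReflTransGen (Stp a b v α) (zs a b v α) z → ∀ y : ℂ, y ∈ interior (Tb a b v α) → uu a b z.1 y = z.2.1 →
  Sep a b v α (z.2.2 + tt a b z.1 y) y (dir a b z.1)

/-- **GN** Generic parameters are dense. (Countably many algebraic numbers; choose `a` transcendental, `b` not algebraic over the
countable field generated by `a` and the algebraic numbers, `v` in the same way; or: each nonzero polynomial has a zero set of
measure zero / nowhere dense, and there are countably many polynomials with algebraic coefficients.) -/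
def S_GN : Prop := ∀ a b v ε : ℝ, 0 < ε → ∃ a' b' v' : ℝ, |a' - a| < ε ∧ |b' - b| < ε ∧ |v' - v| < ε ∧ Gen a' b' v'

/-- **DN** Density from the dense phases. Proof: given `(a, b, v, α)`, `x`, `e`, `φ`, `ε` take a large prime `q`, `h` with `π h / q` near
`α`, generic `a', b', v'` near `a, b, v` (GN). `x` is in the interior of the new table (SD). A direction `dir (w, true) = conj w d`, `w^(2 q)
= 1`, `w² ≠ 1`, is near `e`. The line through `x` is in the range. By LI, EG, NE there are `n, k` with the chord `z n` near the
line and `(z n).2.2` near `φ - tt x` modulo `ll`. The point `y` on the chord with `tt y = tt x` is near `x`; LN. -/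
def S_DN : Prop := S_SD → S_EX → S_LI → S_EG → S_NE → S_GN →
  (∀ (a b v α : ℝ) (h q : ℕ), Rat a b v α h q → ∀ z : St × ℝ × ℝ,
    ReflTransGen (Stp a b v α) (zs a b v α) z → ∀ y : ℂ, y ∈ interior (Tb a b v α) → uu a b z.1 y = z.2.1 →
    Sep a b v α (z.2.2 + tt a b z.1 y) y (dir a b z.1)) → S_DE

end Pool.Agent.U856.BM
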