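import Pool.Agent.U856.BM.Stm2

/-!
# Project BM, split of NE
-/

set_option autoImplicit false

open Set Filter Topology ComplexConjugate

namespace Pool.Agent.U856.BM

/-- `x √(a² + b²)` is a quadratic form in `a, b, v` with algebraic coefficients and without the term `v²` -/
def IsF (a b v x : ℝ) : Prop := ∃ c : Fin 5 → ℝ, (∀ i, IsAlgebraic ℚ (c i)) ∧
  x * √(a ^ 2 + b ^ 2) = c 0 * a ^ 2 + c 1 * a * b + c 2 * b ^ 2 + c 3 * a * v + c 4 * b * v

/-- the phase of the reflection in the side `j` in the state `i`, divided by `ll` -/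
noncomputable def rh (a b v α : ℝ) (i : St) (j : Fin 5) : ℝ :=
  2 * oS a b v j * dt (dd a b) (G i (nS α j)) / ll a b

/-- **N1** The system of intervals. From an eigenfunction one gets (by IT) finitely many lengths `len c`, `c : κ`, with states
`st c`, exit sides `jj c` and integers `n c` such that the relation of IT holds. Proof from EX, KZ, IT: components of the
complement of `K0`: index set `{i | Al q i} × {m | |m| ≤ 2}`; for `¬ C0 i` take the whole range for `m = 0` and an empty
interval otherwise, for `C0 i` the range intersected with `|L u - 2 a b m| < b v / sin α` (or an empty interval). Pieces: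
component, exit side, target component: the intersection of the component, of the exit interval and of the translated target
component; `lo`, `hi` are the maximum and the minimum of three end points (if `hi < lo` put `hi = lo`). End points are
`IsF`: `L uu i (vS k) = F (G i (vS k))`; `(2 a b m ± b v / sin α) / L`; the translations are `- 2 o_j cr d (G i n_j)`; roots of unity and `sin
α`, `cos α` are algebraic. All the chords which leave through the cut are outside `K0`, so the lengths of the pieces with
the state `i` and the side 3 add up to the length of the exit interval. -/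
def S_N1 : Prop := ∀ (a b v α : ℝ) (h q : ℕ), Rat a b v α h q → ∀ (k : ℕ) (F : St × ℝ → ℂ), 1 ≤ k →
  Eig a b v α q k F → ∃ (κ : Type) (_ : Fintype κ) (len : κ → ℝ) (st : κ → St) (jj : κ → Fin 5) (n : κ → ℤ),
    (∀ c, IsF a b v (len c)) ∧ (∀ c, Al q (st c)) ∧
    (∀ i, Al q i → 0 < dt (dd a b) (G i (nS α 3)) →
      ∀ S : Finset κ, (∀ c, c ∈ S ↔ st c = i ∧ jj c = 3) →
        ∑ c ∈ S, len c = v * dt (dd a b) (G i (nS α 3)) / (Real.sin α * Real.cos α)) ∧
    (∀ i, Al q i → dt (dd a b) (G i (nS α 3)) ≤ 0 → ∀ c, st c = i → jj c = 3 → len c = 0) ∧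
    ∑ c, len c * (k * rh a b v α (st c) (jj c) + n c) = 0

/-- **N2** The algebra. Multiply the relation by `L³`, `L² = a² + b²`, `rh = o_j dt (a + I b) (G i n_j) / L²`: a polynomial relation
of degree 4 for `a, b, v` with algebraic coefficients (`G i n_j` has algebraic real and imaginary part), so the polynomial is
zero (`Gen`). The coefficient of `v²`, a polynomial in `a, b`: only `o_3 = -v` contributes, with the `v`-part `(c 3 a + c 4 b)` of
the forms: `- k ∑_{jj c = 3} (c 3 a + c 4 b)_c dt (a + I b) (G (st c) n_3) = 0`. For each `i` the sum condition is, times `L`, an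
identity between forms at the generic point, so it holds for the coefficients, and its `v`-part says `∑ (c 3 a + c 4 b) = dt (a +
I b) (G i n_3) / (sin α cos α)` (or 0 if `dt ≤ 0`; there `len c = 0` gives `c 3 = c 4 = 0`). So `- k / (sin α cos α) ∑_i (dt (a + I b) (G i
n_3))² = 0`, the sum over the states with `dt > 0`; there is such a state (one of `(± 1, true)`): contradiction. -/
def S_N2 : Prop := ∀ (a b v α : ℝ) (h q : ℕ), Rat a b v α h q → ∀ (k : ℕ), 1 ≤ k →
  ∀ (κ : Type) (_ : Fintype κ) (len : κ → ℝ) (st : κ → St) (jj : κ → Fin 5) (n : κ → ℤ),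
    (∀ c, IsF a b v (len c)) → (∀ c, Al q (st c)) →
    (∀ i, Al q i → 0 < dt (dd a b) (G i (nS α 3)) →
      ∀ S : Finset κ, (∀ c, c ∈ S ↔ st c = i ∧ jj c = 3) →
        ∑ c ∈ S, len c = v * dt (dd a b) (G i (nS α 3)) / (Real.sin α * Real.cos α)) →
    (∀ i, Al q i → dt (dd a b) (G i (nS α 3)) ≤ 0 → ∀ c, st c = i → jj c = 3 → len c = 0) →
    ∑ c, len c * (k * rh a b v α (st c) (jj c) + n c) = 0 → False

theorem ne_of (h1 : S_N1) (h2 : S_N2) : S_NE := by
  intro a b v α h q hR k F hk hE
  obtain ⟨κ, hκ, len, st, jj, n, g1, g2, g3, g4, g5⟩ := h1 a b v α h q hR k F hk hE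
  exact h2 a b v α h q hR k hk κ hκ len st jj n g1 g2 g3 g4 g5

end Pool.Agent.U856.BM
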